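import Pool.Agent.Run7.h622.Hz.Final

/-!
# Bloch's problem for abelian covers of Hirzebruch surfaces

Let `F_e` be the Hirzebruch surface with the fibre class `F`, the negative section `C₀` (`C₀ ^ 2 = -e`) and
`C = C₀ + e F`. The affine plane with the coordinates `x`, `y` is the complement of the fibre `x = ∞` and of
`C₀`, which is the section `y = ∞`; the function `y` has a pole of order `e` along the fibre `x = ∞`. So a
curve of the class `α C + γ F` is given by a polynomial `f (x, y)` of degree at most `α` in `y` and of weighted
degree at most `e α + γ`, where `x` has the weight `1` and `y` has the weight `e` (`IsHirzebruchCurve`). All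
irreducible curves except `C₀` have such a class with `α, γ ≥ 0`.

A normal abelian cover of `F_e` with the group `G`, branched along curves of the classes `α i C + γ i F` and
along `C₀`, is given by elements `g i` and `g₀` of `G` with `∑ i, (e α i + γ i) g i = 0` and
`∑ i, α i g i + g₀ = 0`. A character `χ` of `G` of order dividing `n` gives the residues `a i = χ (g i)` modulo
`n`, and the cyclic quotient `Y` is the surface `z ^ n = ∏ i, f i (x, y) ^ a i`. By Pardini the dual of
`H² (Y, O_Y)` is the sum of the `H⁰ ((A k - 2) C₀ + (B k - 2 - e) F)` over the characters `k χ`, where `A k` is
the sum of the `α i ((k a i) / n)` rounded up (this is the contribution of `C₀`), and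
`B k = ∑ i, (e α i + γ i) ((k a i) / n)`. So `H² (Y, O_Y) = 0` means that
`∑ i, α i ((k a i) / n) ≤ 1` or `B k ≤ e + 1` for all `k`.

Theorem: in this case the surface `z ^ n = ∏ i, f i (x, y) ^ a i` is dominated by a product of two curves, for
all `e ≥ 0`. There is no condition on the number, the components and the singularities of the branch curves.

Together with the projective plane these are all minimal rational surfaces; `e = 1` contains the covers
of the plane, and `e = 0` the covers of the product of two projective lines.

Proof. Let `A` be the number of branch points in the fibres of the ruling, the section `C₀` included. If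
`A ≤ 3`, then the fibres can be moved to standard position. Let `A ≥ 4` and `e ≥ 1`. If
`∑ i, α i (a i / n) ≤ 1`, then `A 1 ≤ 1` and `A (-1) ≥ 3`, and so `B (-1) > 2 e ≥ e + 1`, a contradiction. So
`B 1, B (-1) ≤ e + 1`, and `3 e ≤ B 1 + B (-1) ≤ 2 e + 2`. This is impossible for `e ≥ 3`. For `e = 1` the surface is
a cover of the plane of degree at most two for the two characters, and known. For `e = 2` the classes of the
branch curves are multiples of `C`, with the sum `3 C`, and the characters `2` and `-2` show that either all
residues are one half, or there are two curves of the class `C` with opposite residues, and one curve of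
the class `C` with the residue one half. The last surface is ruled over the pencil spanned by the two curves.
The first surface is `z ^ 2 = q₃ y ^ 3 + q₂ (x) y ^ 2 + q₁ (x) y + q₀ (x)` with `deg q_j ≤ 6 - 2 j`. If the
right side vanishes for some polynomial `y = γ (x)` of degree at most two, then there is a pencil of conics. If
not, take a parabola `y = ρ + m (x - s) + c (x - s) ^ 2` which is tangent to the branch curve at a generic point
`(s, ρ)`; the condition that it is tangent at one more point is an equation for `c` of degree exactly `12`, a
discriminant. Over such a parabola the cover is rational, and the parabola is not constant, because the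
branch curve does not contain a parabola.
-/

namespace Pool.Agent.Results.MP_7ebcb6_ag.AbelianHirzebruchCovers

open Pool.Agent.N197.Pln Run7.h622.Hz

/-- a cyclic cover of a Hirzebruch surface with `H² (Y, O_Y) = 0` is dominated by a product of curves -/
theorem result {ι : Type} [Fintype ι] {e : ℕ} {f : ι → MvPolynomial (Fin 2) ℂ} {α γ : ι → ℕ}
    (hf : ∀ i, IsHirzebruchCurve e (f i) (α i) (γ i)) {n : ℕ} [NeZero n] {a : ι → ZMod n}
    (hsum : ∑ i, (e * α i + γ i) • a i = 0)
    (hpg : ∀ k : ℤ, lineDegree n α (fun i => k • a i) ≤ 1 ∨
      lineDegree n (fun i => e * α i + γ i) (fun i => k • a i) ≤ e + 1) :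
    AffineDominatedByCurves n f a :=
  hirzebruch hf hsum hpg

end Pool.Agent.Results.MP_7ebcb6_ag.AbelianHirzebruchCovers
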