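import Pool.Agent.Run7.h570.GAP.Main

/-!
# The gap theorem for surfaces with `p_g = q = 0`

Let `S` be a smooth projective surface with `p_g = q = 0` over a field of characteristic zero over which
its divisor classes are defined, `b` its Betti number, and `a_1, ..., a_b` a basis of the space spanned
by `1`, the divisor classes and a zero-cycle of degree one, with the intersection matrix `G`. Let
`A(n) = CH^*(S ^ n)_ℚ`, and let

`t = Δ - ∑ (G⁻¹)_(i, j) a_i × a_j ∈ A(2)`

be the transcendental part of the diagonal. Bloch's conjecture is true for `S` if and only if `t = 0`.

Consider the products of disjoint diagonals `Δ_(i, j)` and classes `a_i` on `S ^ n`, in which every factor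
of `S ^ n` occurs exactly once. They are finitely many explicit classes in `CH^*(S ^ n)`.

Theorem.

1. If Bloch's conjecture is true for `S` then at most `b ^ n` of these products are linearly independent.
2. If it is false then at least `((b + 4) ^ n + (b - 4) ^ n) / (2 binomial(⌊n / 2⌋ + 15, 15))` of them are
linearly independent.
3. If Bloch's conjecture is false, then every linear relation with rational coefficients

`∑_σ c_σ t_(1, k + σ(1)) t_(2, k + σ(2)) ... t_(k, k + σ(k)) = 0` in `CH^(2 k)(S ^ (2 k))`

between the products of the pull-backs of `t`, that is, every element `c` of the group ring of the
symmetric group which vanishes on the `k`-th tensor power of the transcendental motive of `S`, is a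
relation between the (signed) permutations of the factors of the `k`-th tensor power of the super
vector space `ℚ^(2|2)` with two even and two odd dimensions.
4. If Bloch's conjecture is false, then the `1 · 3 · 5 ⋯ (m - 1)` products of the pull-backs of `t` to
`S ^ m` for all partitions of the `m` factors into pairs are linearly independent for all `m < 12`, for
example the 945 products on `S ^ 10`.

So there is nothing between `b ^ n` and `(b + 4 - o(1)) ^ n`. The same is true for all varieties with a
matrix `G` of rank equal to the Euler number, that is, if the cohomology is spanned by algebraic
classes with rational intersection numbers.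

Proof. All relations between the products of pairs of `t` which are linear in each factor are stable
under the permutation of the factors and under the integration over two factors of the product with
`t`. By polarization and contraction of highest weight vectors one strips a relation which
does not hold on the space `ℚ^(2|2)` of superdimension zero to `1` or to a multiple of `t`. So `t = 0`, or all
relations hold on `ℚ^(2|2)`. In the second case the dimension of the span of the products is estimated
from below by the inequality `rank A ≥ (tr A) ^ 2 / tr A ^ 2` and the count of the words which are fixed by
permutations. For the products with the classes `a_i` one decomposes the spaces according to the factors in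
which a class is transcendental.
-/

set_option autoImplicit false

open Pool.Agent.Run7.h570.GAP

namespace Pool.Agent.Results.MP_7ebcb6_ag.GapTheorem

universe u

/-- **The gap theorem.** Let `R` be a system `A(n)` of rings with the formal properties of the Chow rings
of the powers of a variety, `a_i` classes in `A(1)` with the invertible symmetric intersection matrix `G`
of rank `b`, let `b` be the Euler number, and `t = tr R a G` the transcendental part of the diagonal.

If `t = 0` then at most `b ^ n` of the products in `IsProduct R a n` (disjoint diagonals and classes `a_i`)
are linearly independent.

If `t ≠ 0` then there are `N` linearly independent products with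
`2 * binomial(n / 2 + 15, 15) * N ≥ (b + 4) ^ n + (b - 4) ^ n`; every relation between the products of
`t_(i, k + σ i)` is a relation on `ℚ^(2|2)`; and the products `mprod t τ` of the pairs of the matchings
`τ` of `m` factors are linearly independent for `m < 12`. -/
theorem result {R : PowerRings.{u}} {b : ℕ} {a : Fin b → R.A 1} {G : Matrix (Fin b) (Fin b) ℚ}
    (h : Tate R a G) :
    (tr R a G = 0 → ∀ (n N : ℕ) (v : Fin N → R.A n), (∀ j, IsProduct R a n (v j)) →
      LinearIndependent ℚ v → N ≤ b ^ n) ∧
    (tr R a G ≠ 0 →
      (∀ n : ℕ, ∃ (N : ℕ) (v : Fin N → R.A n), (∀ j, IsProduct R a n (v j)) ∧
        LinearIndependent ℚ v ∧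
        ((b : ℤ) + 4) ^ n + ((b : ℤ) - 4) ^ n ≤ 2 * ((n / 2 + 15).choose 15 : ℕ) * N) ∧
      (∀ (k : ℕ) (c : Equiv.Perm (Fin k) → ℚ),
        ∑ σ, c σ • ∏ i, R.pull ![Fin.castAdd k i, Fin.natAdd k (σ i)] (tr R a G) = 0 →
          SuperRelation c) ∧
      (∀ m < 12, LinearIndependent ℚ (fun τ : Matching m => mprod (tr R a G) τ))) :=
  h.gap

end Pool.Agent.Results.MP_7ebcb6_ag.GapTheorem
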