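import Pool.Agent.Run7.h200.BL

/-!
# Group actions and Bloch's conjecture

Let a finite group `G` act on a smooth projective surface `X` over an algebraically closed field (for
example the complex numbers; the dimension plays no role in the proof). Everything is defined by
points and rational functions: `Zero X` are the zero-cycles with rational coefficients, `RatZero X`
is the span of the direct images of divisors of rational functions on curves, and `Kernel X` consists
of the zero-cycles of degree zero whose image in every abelian variety is zero up to torsion, that is
of the kernel of the Albanese map. `QuotientBloch a H` says that the `H`-invariant classes in the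
kernel of the Albanese map of `X` are zero. They are the kernel `T(X/H)` of the Albanese map of a
desingularisation of the quotient `X/H`, which has no torsion (Roitman), and for surfaces with
`p_g = 0` Bloch's conjecture, `d(X/H) = 0`, says that it is zero. For `H = 1` it is the assertion for
`X`.

The theorem: Bloch's assertion for `X/H` follows from the assertion for the quotients `X/E_i`, if
every irreducible rational representation of `G` which occurs in `T(X)` and has a nonzero vector
fixed by `H` has a nonzero vector fixed by some `E_i`. So the assertion for `X` is equivalent to the
assertion

* for the quotients `X/C` by the subgroups `C` with cyclic quotient `K/C`, if `K` is a commutative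
  subgroup of `G`, and for the quotients by the components of a partition of a subgroup;
* for `X/⟨c⟩` and `X/[G, c]`, if `c` is an involution, and for `X/⟨c⟩`, if `c` is contained in a
  nonabelian simple subgroup;
* for `X/A_k`, if the alternating group `A_n` acts on `X` and `(k - 1) ^ 2 < n` (the bound is
  sharp for representations, which is not proved here), and for all `2 ≤ k ≤ n` for `X/A_k` and the quotient of `X` by the even
  permutations preserving `k - 1` classes of almost the same size.

If the assertion is false for `X`, but true for the quotients by the subgroups of prime order (for
example because these have `p_g = 0` and are not of general type), then `G` acts freely on the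
nonzero vectors of an irreducible representation which occurs in `T(X)`, the commutative subgroups
and the subgroups of order `p q` of `G` are cyclic, and `G` has at most one involution.

The statement on alternating groups: let `x` be a nonzero vector of a representation of the symmetric
group which is fixed by the permutations preserving the classes of a partition of the letters, where
the sum of the squares of the sizes of the classes is as large as possible. If there are `k` classes,
one finds inductively letters `t_1, ..., t_k` in different classes such that the antisymmetrisation
of `x` over these letters is not zero, because the sum over all `t` in one class is a positive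
multiple of the previous antisymmetrisation. If there are fewer classes, an argument with positive
forms makes their sizes almost equal.
-/

open CategoryTheory Pool.Agent.H914 Run7.h200.BL Run7.h200.Van

universe u

namespace Pool.Agent.Results.MP_7ebcb6_ag.GroupActions

/-- **Group actions and Bloch's conjecture.** -/
theorem result {F : Type u} [Field F] [IsAlgClosed F] (X : SmVar F) {G : Type} [Group G] [Finite G]
    (a : G →* Aut X) :
    (QuotientBloch a ⊥ ↔ ∀ z ∈ Kernel X, z ∈ RatZero X) ∧
    (∀ (H : Subgroup G) (ι : Type) (E : ι → Subgroup G), DominatedZero a H E →
      (∀ i, QuotientBloch a (E i)) → QuotientBloch a H) ∧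
    (∀ K : Subgroup G, (∀ x ∈ K, ∀ y ∈ K, x * y = y * x) →
      (QuotientBloch a ⊥ ↔ ∀ C : Subgroup G, CyclicQuotient K C → QuotientBloch a C)) ∧
    (∀ (ι : Type) (E : ι → Subgroup G) (K : Subgroup G), Partitions K E →
      (QuotientBloch a ⊥ ↔ ∀ i, QuotientBloch a (E i))) ∧
    (∀ c : G, c * c = 1 → (QuotientBloch a ⊥ ↔
      QuotientBloch a (Subgroup.zpowers c) ∧ QuotientBloch a (commSub c))) ∧
    (∀ c : G, InSimple c → c ≠ 1 → c * c = 1 →
      (QuotientBloch a ⊥ ↔ QuotientBloch a (Subgroup.zpowers c))) ∧
    (∀ (n k : ℕ) (e : alternatingGroup (Fin n) →* G), 2 ≤ k → (k - 1) ^ 2 < n →
      (QuotientBloch a ⊥ ↔ QuotientBloch a ((altSub n k).map e))) ∧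
    (∀ (n k : ℕ) (e : alternatingGroup (Fin n) →* G), 2 ≤ k → k ≤ n →
      (QuotientBloch a ⊥ ↔ QuotientBloch a ((altSub n k).map e) ∧
        QuotientBloch a ((classSub n (k - 1)).map e))) ∧
    (¬ QuotientBloch a ⊥ → (∀ P : Subgroup G, (Nat.card P).Prime → QuotientBloch a P) →
      FreeZero a ∧ CyclicSubgroups G) :=
  ⟨quotientBloch_bot a, mainBL a⟩

end Pool.Agent.Results.MP_7ebcb6_ag.GroupActions
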