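import Pool.Agent.Run7.h184.PH.Main

/-!
# If Bloch's conjecture fails for a surface, then the Chow groups of its powers grow faster than `b ^ n`

Let `S` be a surface with `p_g = q = 0` over a field `K` of characteristic zero (for instance over a number
field) over which all its divisor classes are defined, and let `b` be its Betti number, the dimension of
`H^*(S)`. The motive of `S` is the direct sum of `b` Tate motives and of the transcendental motive `t`, which
has no cohomology, and Bloch's conjecture is true for `S` (all points of `S` over any algebraically closed
field are rationally equivalent) if and only if `t = 0`. The rank of `CH^*(S ^ n)` modulo homological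
equivalence is `b ^ n`.

Theorem.

1. If Bloch's conjecture is false for `S`, then for all `n ≥ 0`
   `dim CH^*(S ^ n)_ℚ ≥ ((b + √3) ^ n + (b - √3) ^ n + 4 b ^ n) / 6`,
   whereas `dim CH^*(S ^ n)_ℚ = b ^ n` for all `n` if it is true. So a single inequality, for one `n ≥ 2`,
   for the Chow groups of `S ^ n` over the field `K` itself implies Bloch's conjecture for `S`. There is no
   growth in between. For `n = 2, 3, 4` the lower bounds are `b ^ 2 + 1`, `b ^ 3 + 3 b`, `b ^ 4 + 6 b ^ 2 + 3`.
2. Let `π ∈ CH^2(S × S)` be the projector of `t`. If there is a nontrivial linear relation with rational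
   coefficients between the three cycles `π × π` on `S ^ 4 = (S × S) × (S × S)` for the three partitions of
   the four factors in pairs, then `π = 0`, and Bloch's conjecture is true for `S`.

The setting. `C` is the category of the Chow motives over `K` with rational coefficients `L = ℚ` in which
the morphisms are the correspondences of all codimensions, so that all Tate motives are isomorphic to the
unit object `𝟙_ C`. `T = h(S)`, `𝟙_ C ⟶ T ^ n` is `CH^*(S ^ n)_ℚ`, and `t` is self-dual by the symmetric
pairing given by the intersection product, with the dimension `∑ (-1)^i dim H^i(t) = 0`. In the category with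
correspondences of degree zero the same theorem with `ρ = b - 2` in place of `b` concerns the group
`CH^n(S ^ n)` of the cycles in the middle dimension. For `q = 1` the motive `h(S)` contains the same
summands, and part 1 (the lower bound) and part 2 are true with the number `b` of the Tate summands.

Proof. The three maps `u_x` from `t` to `t ⊗ t ⊗ t` given by the identity and the copairing, and the three
maps `v_y` from `t ⊗ t ⊗ t` to `t` given by the identity and the pairing have the compositions `u_x v_y = 1` for
`x ≠ y` and `u_x v_x = dim t = 0`. The matrix with the entries `1` off the diagonal and `0` on the diagonal is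
invertible, so there are three maps `v'_y` with `u_x v'_y = δ_xy`. So `t` is three times a direct summand of
`t ⊗ t ⊗ t`, `3 ^ s` times one of `t ^ (2 s + 1)`, and `𝟙` has at least `3 ^ s` independent maps to `t ^ (2 s + 2)`.
Together with the `b` Tate summands this gives
`dim CH^*(S ^ n) ≥ b ^ n + ∑_(i ≥ 1) binomial(n, 2 i) b ^ (n - 2 i) 3 ^ (i - 1)`.
-/

set_option autoImplicit false

open CategoryTheory MonoidalCategory

namespace Pool.Agent.Results.MP_7ebcb6_ag.GrowthOfPowers

open Pool.Agent.Run7.h184.PH

universe v u w

/-- Let `C` be an `L`-linear symmetric monoidal category, `L` a field of characteristic zero, let `t` be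
self-dual by a symmetric pairing with `dim t = 0`, and let `b` copies of the unit object and `t` be
complementary direct summands of `T`.

1. If `t ≠ 0` then the three maps `us t x` from `t` to `t ⊗ (t ⊗ t)` are linearly independent, and for all
`n` the dimension of the space of the maps from the unit object to the power `pw T n` is at least
`((b + √3) ^ n + (b - √3) ^ n + 4 b ^ n) / 6`.
2. If `t = 0` and `T` is the direct sum of the `b` unit objects, then this dimension is
`b ^ n dim End(𝟙)` for all `n`. -/
theorem result {C : Type u} [Category.{v} C] [Preadditive C] [MonoidalCategory C]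
    [MonoidalPreadditive C] [SymmetricCategory C] {L : Type w} [Field L] [CharZero L] [Linear L C]
    [MonoidalLinear L C] {T t : C} [ExactPairing t t] (h : IsNull t) {b : ℕ}
    (S : Splitting T t b) :
    ((𝟙 t : t ⟶ t) ≠ 0 → LinearIndependent L (us t) ∧
      ∀ n : ℕ, ∃ N : ℕ, (N : Cardinal.{v}) ≤ Module.rank L (𝟙_ C ⟶ pw T n) ∧
        6 * (N : ℝ) = 4 * (b : ℝ) ^ n + (b + √3) ^ n + (b - √3) ^ n) ∧
    ((𝟙 t : t ⟶ t) = 0 → S.Full → ∀ n : ℕ, Module.rank L (𝟙_ C ⟶ pw T n) =
      (b : Cardinal.{v}) ^ n * Module.rank L (𝟙_ C ⟶ 𝟙_ C)) :=
  ⟨fun h0 => ⟨us_indep L h h0, growth L S h h0⟩, fun h0 hS n => small L S hS h0 n⟩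

end Pool.Agent.Results.MP_7ebcb6_ag.GrowthOfPowers
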